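import Mathlib
import Pool.Agent.H31.TC7

/-!
# MP_0ce33b_an, Q1: yes

If `Φ`, `Ψ` are co-analytic polynomials of degree `n ≥ 1` and the completion
`[[T_Φ, T_α], [T_β, T_Ψ]]` is a subnormal operator, then `α` and `β` are trigonometric polynomials of
degree at most `n`. No analyticity or non-analyticity of `α`, `β` is assumed.
-/

set_option autoImplicit false
open scoped InnerProductSpace ComplexConjugate ENNReal Matrix
open Filter Topology MeasureTheory AddCircle
open Pool.Agent.Helper917.Hardy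
open Pool.Agent.H612R3.BpDefs
open Pool.Agent.N293.BT
open Pool.Agent.H31.TC

namespace Pool.Agent.Results.MP_0ce33b_an.SubnormalCompletions

theorem result (n : ℕ) (hn : 1 ≤ n) (Φ Ψ α β : Circ → ℂ)
    (hΘ : IsLinfty (fun t => !![Φ t, α t; β t, Ψ t])) (hΦ : IsCoanalyticPoly n Φ)
    (hΨ : IsCoanalyticPoly n Ψ) (T : HardySp 2 →L[ℂ] HardySp 2)
    (hT : IsToeplitz (fun t => !![Φ t, α t; β t, Ψ t]) T) (hS : IsSubnormalOp T) :
    (α =ᵐ[mu] fun t => ∑ k ∈ Finset.Icc (-(n : ℤ)) n, fourierCoeff α k * fourier k t) ∧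
    (β =ᵐ[mu] fun t => ∑ k ∈ Finset.Icc (-(n : ℤ)) n, fourierCoeff β k * fourier k t) := by
  have hTe := TT_eq hΘ T hT
  have hS' : IsSubnormalOp (H := H2 E2) (TT _ hΘ) := by
    rw [hTe] at hS
    exact hS
  have key := key_vanish hΘ hS' hn hΦ hΨ
  obtain ⟨C, hC⟩ := hΘ.2
  constructor
  · refine trig_of_coeff α (hΘ.1 0 1) C (by filter_upwards [hC] with t ht using ht 0 1) n (fun m hm => ?_)
    rcases lt_or_ge m 0 with h0 | h0
    · rw [abs_of_neg h0] at hm
      have h1 := (key m.natAbs (by omega)).2.2.1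
      have h2 : -((m.natAbs : ℕ) : ℤ) = m := by omega
      rwa [h2] at h1
    · rw [abs_of_nonneg h0] at hm
      have h1 := (key m.toNat (by omega)).1
      have h2 : ((m.toNat : ℕ) : ℤ) = m := by omega
      rwa [h2] at h1
  · refine trig_of_coeff β (hΘ.1 1 0) C (by filter_upwards [hC] with t ht using ht 1 0) n (fun m hm => ?_)
    rcases lt_or_ge m 0 with h0 | h0
    · rw [abs_of_neg h0] at hm
      have h1 := (key m.natAbs (by omega)).2.2.2
      have h2 : -((m.natAbs : ℕ) : ℤ) = m := by omega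
      rwa [h2] at h1
    · rw [abs_of_nonneg h0] at hm
      have h1 := (key m.toNat (by omega)).2.1
      have h2 : ((m.toNat : ℕ) : ℤ) = m := by omega
      rwa [h2] at h1

end Pool.Agent.Results.MP_0ce33b_an.SubnormalCompletions
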